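import Pool.Agent.H24.L5.Stmts
import Pool.Agent.H53.Dense.Loss

/-!
# L5, row LWK: the maximal function form from the restricted form
-/

set_option autoImplicit false

open MeasureTheory ENNReal

namespace Pool.L5

open Pool.Agent.H53.Kak

variable {d : ℕ}

/-- The lower bound for a general set from the restricted form: the tubes of the family have the mean
density `lb` in `X`. -/
lemma lower_of_Rs {p : ℝ} (hd : 1 ≤ d) (hp1 : 1 < p)
    (h : Rs d (1 + (d : ℝ) - p) p) {ε : ℝ} (hε : 1 + (d : ℝ) - p < ε) :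
    ∃ c : ℝ, 0 < c ∧ ∀ δ : ℝ, 0 < δ → δ < 1 → ∀ (ι : Type) (S : Finset ι) (c₀ e : ι → E d),
      Fam δ e S → 0 < S.card → ∀ X : Set (E d), MeasurableSet X → ∀ V lb : ℝ, 0 < V →
      volume X = ENNReal.ofReal V → 0 < lb →
      ENNReal.ofReal (lb * (2 ^ d * δ ^ d * S.card)) ≤ ∑ j ∈ S, volume (X ∩ tube δ (c₀ j) (e j)) →
      c * δ ^ ε * (lb ^ p * δ ^ d * (S.card : ℝ)) ≤ V := by
  classical
  have hd0 : (0 : ℝ) < d := by exact_mod_cast hd
  have hG := CG_pos d
  have hp0 : 0 < p := by linarith only [hp1]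
  have hε1 : 0 < (ε - (1 + (d : ℝ) - p)) / (1 + p) :=
    div_pos (by linarith only [hε]) (by linarith only [hp1])
  set ε1 : ℝ := (ε - (1 + (d : ℝ) - p)) / (1 + p) with hε1def
  obtain ⟨c, hc, hr⟩ := h ((1 + (d : ℝ) - p) + ε1) (by linarith only [hε1])
  set Ck : ℝ := 1 + 1 + 2 / ε1 with hCk
  have hCk0 : 0 < Ck := by positivity
  set c2 : ℝ := min ((CG d * 3 ^ d)⁻¹) (c * (4 * Ck) ^ (-p)) with hc2
  have hc20 : 0 < c2 := by rw [hc2]; positivity
  refine ⟨c2, hc20, ?_⟩
  intro δ hδ hδ1 ι S c₀ e hF hS X hX V lb hV hVX hlb hmass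
  have hNr : (0 : ℝ) < S.card := by exact_mod_cast hS
  set N : ℝ := (S.card : ℝ) with hN
  -- the densities
  obtain ⟨w, hw0, hwE⟩ : ∃ w : ι → ℝ, (∀ j, 0 ≤ w j) ∧ ∀ j, volume (X ∩ tube δ (c₀ j) (e j)) =
      ENNReal.ofReal (w j * (2 ^ d * δ ^ d)) := by
    refine ⟨fun j => (volume (X ∩ tube δ (c₀ j) (e j))).toReal / (2 ^ d * δ ^ d),
      fun j => by positivity, ?_⟩
    intro j
    have hfin : volume (X ∩ tube δ (c₀ j) (e j)) ≠ ∞ := by
      refine ne_top_of_le_ne_top ?_ (measure_mono Set.inter_subset_left)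
      rw [hVX]; exact ENNReal.ofReal_ne_top
    rw [div_mul_cancel₀ _ (by positivity), ENNReal.ofReal_toReal hfin]
  have hw1 : ∀ j ∈ S, w j ≤ 1 := by
    intro j hj
    have h1 : volume (X ∩ tube δ (c₀ j) (e j)) ≤ ENNReal.ofReal ((2 * δ) ^ d) :=
      (measure_mono Set.inter_subset_right).trans
        (volume_tube_le δ hδ.le (c₀ j) (e j) (hF.unit j hj))
    rw [hwE, ENNReal.ofReal_le_ofReal_iff (by positivity), mul_pow] at h1
    exact le_of_mul_le_mul_right (by rw [one_mul]; exact h1) (by positivity : (0:ℝ) < 2 ^ d * δ ^ d)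
  have hwV : ∀ j, w j * (2 ^ d * δ ^ d) ≤ V := by
    intro j
    have h1 : volume (X ∩ tube δ (c₀ j) (e j)) ≤ volume X := measure_mono Set.inter_subset_left
    rw [hwE, hVX, ENNReal.ofReal_le_ofReal_iff hV.le] at h1
    exact h1
  have hsum : lb * N ≤ ∑ j ∈ S, w j := by
    rw [Finset.sum_congr rfl (fun j _ => hwE j), ← ENNReal.ofReal_sum_of_nonneg
      (fun j _ => mul_nonneg (hw0 j) (by positivity)), ENNReal.ofReal_le_ofReal_iff
      (Finset.sum_nonneg (fun j _ => mul_nonneg (hw0 j) (by positivity))), ← Finset.sum_mul] at hmass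
    have : (lb * N) * (2 ^ d * δ ^ d) ≤ (∑ j ∈ S, w j) * (2 ^ d * δ ^ d) := by
      calc (lb * N) * (2 ^ d * δ ^ d) = lb * (2 ^ d * δ ^ d * N) := by ring
        _ ≤ _ := hmass
    exact le_of_mul_le_mul_right this (by positivity)
  have hVlow : lb * δ ^ d ≤ V := by
    obtain ⟨j, hj, hj2⟩ : ∃ j ∈ S, lb ≤ w j := by
      by_contra hcon
      push Not at hcon
      have : ∑ j ∈ S, w j < ∑ _j ∈ S, lb :=
        Finset.sum_lt_sum_of_nonempty (Finset.card_pos.mp hS) (fun j hj => hcon j hj)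
      rw [Finset.sum_const, nsmul_eq_mul] at this
      linarith only [hsum, this]
    calc lb * δ ^ d ≤ w j * δ ^ d := by gcongr
      _ ≤ w j * (2 ^ d * δ ^ d) := by
          have : (1 : ℝ) ≤ 2 ^ d := one_le_pow₀ (by norm_num)
          have h3 : δ ^ d ≤ 2 ^ d * δ ^ d := by
            have : 0 < δ ^ d := by positivity
            nlinarith
          exact mul_le_mul_of_nonneg_left h3 (hw0 j)
      _ ≤ V := hwV j
  have hlb1 : lb ≤ 1 := by
    have h1 : ∑ j ∈ S, w j ≤ ∑ _j ∈ S, (1 : ℝ) := Finset.sum_le_sum hw1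
    rw [Finset.sum_const, nsmul_eq_mul, mul_one] at h1
    have : lb * N ≤ 1 * N := by linarith only [hsum, h1]
    exact le_of_mul_le_mul_right this hNr
  have hcard := card_le_all hδ hδ1 hF
  rcases le_or_gt lb δ with hcase | hcase
  · -- small density
    have h1 : lb ^ (p - 1) ≤ δ ^ (p - 1) :=
      Real.rpow_le_rpow hlb.le hcase (by linarith only [hp1])
    have h2 : lb ^ p = lb * lb ^ (p - 1) := by
      rw [← Real.rpow_one_add' hlb.le (by linarith only [hp0])]
      congr 1; ring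
    have h3 : δ ^ ε * δ ^ (p - 1) * N ≤ (CG d * 3 ^ d) := by
      have h4 : δ ^ ε * δ ^ (p - 1) ≤ δ ^ d := by
        rw [← Real.rpow_add hδ, ← Real.rpow_natCast δ d]
        apply Real.rpow_le_rpow_of_exponent_ge hδ hδ1.le
        linarith only [hε]
      calc δ ^ ε * δ ^ (p - 1) * N ≤ δ ^ d * (CG d * 3 ^ d * (δ ^ d)⁻¹) := by gcongr
        _ = CG d * 3 ^ d := by field_simp
    calc c2 * δ ^ ε * (lb ^ p * δ ^ d * N)
        ≤ (CG d * 3 ^ d)⁻¹ * δ ^ ε * (lb ^ p * δ ^ d * N) := by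
          gcongr
          exact min_le_left _ _
      _ = (CG d * 3 ^ d)⁻¹ * (lb * δ ^ d) * (δ ^ ε * lb ^ (p - 1) * N) := by
          rw [h2]; ring
      _ ≤ (CG d * 3 ^ d)⁻¹ * (lb * δ ^ d) * (δ ^ ε * δ ^ (p - 1) * N) := by gcongr
      _ ≤ (CG d * 3 ^ d)⁻¹ * (lb * δ ^ d) * (CG d * 3 ^ d) := by gcongr
      _ = lb * δ ^ d := by
          have : CG d * 3 ^ d ≠ 0 := by positivity
          field_simp
      _ ≤ V := hVlow
  · -- large density
    obtain ⟨K, hK1, hK2⟩ := num_levels hδ hδ1 hε1 1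
    have hKpos : 0 < K := by
      rcases Nat.eq_zero_or_pos K with h0 | h0
      · exfalso
        rw [h0, pow_zero, pow_one] at hK1
        have : 1 ≤ δ⁻¹ := (one_le_inv₀ hδ).mpr hδ1.le
        linarith only [hδ, hδ1, hK1, this]
      · exact h0
    have hKr : (0 : ℝ) < K := by exact_mod_cast hKpos
    have hK3 : (1 / 2 : ℝ) ^ K ≤ lb / 2 := by
      rw [div_pow, one_pow, div_le_iff₀ (by positivity)]
      have h1 : 2 / lb < 2 ^ K := by
        calc 2 / lb ≤ 2 ^ 1 * δ⁻¹ := by
              rw [div_eq_mul_inv, pow_one]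
              gcongr
          _ < 2 ^ K := hK1
      rw [div_lt_iff₀ hlb] at h1
      linarith only [h1]
    set Sl : ℕ → Finset ι := fun s => S.filter (fun j => (1 / 2 : ℝ) ^ (s + 1) < w j ∧
      w j ≤ (1 / 2) ^ s) with hSl
    have hsum2 : lb * N / 2 ≤ ∑ s ∈ Finset.range K, ∑ j ∈ Sl s, w j := by
      have h1 : ∑ j ∈ S, w j ≤ ∑ s ∈ Finset.range K, ∑ j ∈ Sl s, w j + lb / 2 * N := by
        have h2 : ∀ j ∈ S, w j ≤ ∑ s ∈ Finset.range K, (if (1 / 2 : ℝ) ^ (s + 1) < w j ∧
            w j ≤ (1 / 2) ^ s then w j else 0) + lb / 2 := by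
          intro j hj
          rcases le_or_gt (w j) (lb / 2) with h3 | h3
          · have : 0 ≤ ∑ s ∈ Finset.range K, (if (1 / 2 : ℝ) ^ (s + 1) < w j ∧
              w j ≤ (1 / 2) ^ s then w j else 0) := by
              apply Finset.sum_nonneg
              intro s _
              split_ifs; exacts [hw0 j, le_rfl]
            linarith only [h3, this]
          · have hwj : 0 < w j := lt_trans (by positivity) h3
            obtain ⟨s, hs1, hs2⟩ := exists_nat_pow_near_of_lt_one hwj (hw1 j hj)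
              (by norm_num : (0 : ℝ) < 1 / 2) (by norm_num)
            have hsK : s < K := by
              by_contra hcon
              push Not at hcon
              have : (1 / 2 : ℝ) ^ s ≤ (1 / 2) ^ K :=
                pow_le_pow_of_le_one (by norm_num) (by norm_num) hcon
              linarith only [hK3, h3, hs2, this]
            have h4 : w j ≤ ∑ s ∈ Finset.range K, (if (1 / 2 : ℝ) ^ (s + 1) < w j ∧
                w j ≤ (1 / 2) ^ s then w j else 0) := by
              refine le_trans ?_ (Finset.single_le_sum (f := fun s => if (1 / 2 : ℝ) ^ (s + 1) < w j ∧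
                w j ≤ (1 / 2) ^ s then w j else 0) (fun s _ => by
                  split_ifs; exacts [hw0 j, le_rfl]) (Finset.mem_range.mpr hsK))
              rw [if_pos ⟨hs1, hs2⟩]
            have : 0 ≤ lb / 2 := by positivity
            linarith only [hδ, hcase, h4]
        calc ∑ j ∈ S, w j ≤ ∑ j ∈ S, (∑ s ∈ Finset.range K, (if (1 / 2 : ℝ) ^ (s + 1) < w j ∧
              w j ≤ (1 / 2) ^ s then w j else 0) + lb / 2) := Finset.sum_le_sum h2
          _ = _ := by
              rw [Finset.sum_add_distrib, Finset.sum_comm, Finset.sum_const, nsmul_eq_mul]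
              congr 1
              · apply Finset.sum_congr rfl
                intro s _
                rw [hSl, Finset.sum_filter]
              · rw [hN]; ring
      linarith only [hsum, h1]
    obtain ⟨s, hs, hs2⟩ : ∃ s ∈ Finset.range K, lb * N / 2 / K ≤ ∑ j ∈ Sl s, w j := by
      by_contra hcon
      push Not at hcon
      have h1 : ∑ s ∈ Finset.range K, ∑ j ∈ Sl s, w j < ∑ _s ∈ Finset.range K, lb * N / 2 / K :=
        Finset.sum_lt_sum_of_nonempty ⟨0, Finset.mem_range.mpr hKpos⟩ hcon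
      rw [Finset.sum_const, Finset.card_range, nsmul_eq_mul, mul_div_cancel₀ _ hKr.ne'] at h1
      linarith only [hsum2, h1]
    set x : ℝ := (1 / 2) ^ s with hx
    have hx0 : 0 < x := by positivity
    have hx1 : x ≤ 1 := pow_le_one₀ (by norm_num) (by norm_num)
    set Ns : ℝ := ((Sl s).card : ℝ) with hNs
    have hxN : lb * N / 2 / K ≤ x * Ns := by
      refine hs2.trans ?_
      calc ∑ j ∈ Sl s, w j ≤ ∑ _j ∈ Sl s, x :=
            Finset.sum_le_sum (fun j hj => (Finset.mem_filter.1 hj).2.2)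
        _ = x * Ns := by rw [Finset.sum_const, nsmul_eq_mul, mul_comm]
    have hNs0 : 0 < Ns := by
      have : 0 < x * Ns := lt_of_lt_of_le (by positivity) hxN
      exact (pos_iff_pos_of_mul_pos this).mp hx0
    have hNsN : Ns ≤ N := by
      rw [hNs, hN]; exact_mod_cast Finset.card_le_card (Finset.filter_subset _ _)
    have hres := hr δ hδ hδ1 ι (Sl s) c₀ e (hF.mono (Finset.filter_subset _ _)) X hX (x / 2)
      (by positivity) (by linarith only [hδ, hδ1, hx1]) (by
        intro j hj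
        rw [hwE]
        apply ENNReal.ofReal_le_ofReal
        have h1 := (Finset.mem_filter.1 hj).2.1
        have h2 : x / 2 < w j := by
          rw [hx]
          calc (1 / 2 : ℝ) ^ s / 2 = (1 / 2) ^ (s + 1) := by rw [pow_succ]; ring
            _ < w j := h1
        have h3 : (1 : ℝ) ≤ 2 ^ d := one_le_pow₀ (by norm_num)
        have h4 : 0 < δ ^ d := by positivity
        calc x / 2 * δ ^ d ≤ w j * δ ^ d := by gcongr
          _ ≤ w j * (2 ^ d * δ ^ d) := by
              refine mul_le_mul_of_nonneg_left ?_ (hw0 j)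
              nlinarith only [hδ, hδ1, h3, h4])
    rw [hVX, ENNReal.ofReal_le_ofReal_iff hV.le] at hres
    refine le_trans ?_ hres
    -- algebra
    have h1 : (x / 2) ^ p * Ns ≥ (lb / (4 * K)) ^ p * N := by
      have h2 : (x / 2) ^ p * Ns = ((x / 2) * Ns) ^ p * Ns ^ (1 - p) := by
        rw [Real.mul_rpow (by positivity) hNs0.le, mul_assoc, ← Real.rpow_add hNs0]
        rw [show p + (1 - p) = 1 by ring, Real.rpow_one]
      have h3 : (lb / (4 * K)) ^ p * N = ((lb / (4 * K)) * N) ^ p * N ^ (1 - p) := by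
        rw [Real.mul_rpow (by positivity) hNr.le, mul_assoc, ← Real.rpow_add hNr]
        rw [show p + (1 - p) = 1 by ring, Real.rpow_one]
      rw [h2, h3, ge_iff_le]
      have h4 : (lb / (4 * K)) * N ≤ (x / 2) * Ns := by
        have : lb / (4 * K) * N = (lb * N / 2 / K) / 2 := by field_simp; norm_num
        rw [this]; linarith only [hxN]
      have h5 : N ^ (1 - p) ≤ Ns ^ (1 - p) := by
        apply Real.rpow_le_rpow_of_nonpos hNs0 hNsN
        linarith only [hp1]
      gcongr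
    have h2 : (lb / (4 * K)) ^ p ≥ (4 * Ck) ^ (-p) * δ ^ (ε1 * p) * lb ^ p := by
      have h3 : lb / (4 * K) ≥ (4 * Ck)⁻¹ * δ ^ ε1 * lb := by
        have h4 : (K : ℝ) ≤ Ck * (δ ^ ε1)⁻¹ := by
          rw [← Real.rpow_neg hδ.le]
          push_cast at hK2
          exact hK2
        rw [ge_iff_le, le_div_iff₀ (by positivity)]
        calc (4 * Ck)⁻¹ * δ ^ ε1 * lb * (4 * K) ≤ (4 * Ck)⁻¹ * δ ^ ε1 * lb *
              (4 * (Ck * (δ ^ ε1)⁻¹)) := by gcongr
          _ = lb := by field_simp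
      calc (lb / (4 * K)) ^ p ≥ ((4 * Ck)⁻¹ * δ ^ ε1 * lb) ^ p := by
            apply Real.rpow_le_rpow (by positivity) h3 hp0.le
        _ = _ := by
            rw [Real.mul_rpow (by positivity) hlb.le, Real.mul_rpow (by positivity) (by positivity),
              Real.inv_rpow (by positivity), ← Real.rpow_neg (by positivity),
              ← Real.rpow_mul hδ.le]
    have h3 : δ ^ ε = δ ^ (1 + (d : ℝ) - p + ε1) * δ ^ (ε1 * p) := by
      rw [← Real.rpow_add hδ]
      congr 1
      have : (1 + p) * ε1 = ε - (1 + (d : ℝ) - p) := by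
        rw [hε1def]; field_simp
      linarith only [this]
    calc c2 * δ ^ ε * (lb ^ p * δ ^ d * N)
        ≤ (c * (4 * Ck) ^ (-p)) * δ ^ ε * (lb ^ p * δ ^ d * N) := by
          gcongr
          exact min_le_right _ _
      _ = c * δ ^ (1 + (d : ℝ) - p + ε1) * (((4 * Ck) ^ (-p) * δ ^ (ε1 * p) * lb ^ p) * N *
            δ ^ d) := by
          rw [h3]; ring
      _ ≤ c * δ ^ (1 + (d : ℝ) - p + ε1) * ((lb / (4 * K)) ^ p * N * δ ^ d) := by
          gcongr
      _ ≤ c * δ ^ (1 + (d : ℝ) - p + ε1) * (((x / 2) ^ p * Ns) * δ ^ d) := by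
          gcongr
      _ = _ := by ring

/-- The algebra of the weak type bound. -/
lemma solve_V' {p V lam δ N c η : ℝ} (hp1 : 1 < p) (hV : 0 < V) (hlam : 0 < lam)
    (hδ : 0 < δ) (hN : 0 < N) (hc : 0 < c) (hη : 0 < η)
    (h : c * η * ((lam * V / (2 ^ d * δ ^ d * N)) ^ p * δ ^ d * N) ≤ V) :
    V ≤ ((2 : ℝ) ^ (d * p) / c) ^ (1 / (p - 1)) * η ^ (-(1 / (p - 1))) *
      (lam ^ (-(p / (p - 1))) * (δ ^ d * N)) := by
  have hp0 : 0 < p := by linarith only [hp1]
  have hs : 0 < p - 1 := by linarith only [hp1]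
  set D : ℝ := δ ^ d with hD
  have hD0 : 0 < D := by positivity
  have h2d : (2 : ℝ) ^ (d * p) = ((2 : ℝ) ^ d) ^ p := by
    rw [Real.rpow_mul (by norm_num), Real.rpow_natCast]
  set T : ℝ := (2 : ℝ) ^ d with hT
  have hT0 : 0 < T := by positivity
  -- `V ^ (p - 1) ≤ X`
  set X : ℝ := T ^ p / c * η⁻¹ * (lam ^ (-p) * (D * N) ^ (p - 1)) with hX
  have hX0 : 0 < X := by positivity
  have e1 : (lam * V / (T * D * N)) ^ p * D * N =
      V * (lam ^ p * V ^ (p - 1) * (T ^ p)⁻¹ * ((D * N) ^ (p - 1))⁻¹) := by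
    have hV2 : V ^ p = V * V ^ (p - 1) := by
      rw [← Real.rpow_one_add' hV.le (by linarith only [hp0])]
      congr 1; ring
    have hDN : (D * N) ^ p = (D * N) * (D * N) ^ (p - 1) := by
      rw [← Real.rpow_one_add' (by positivity) (by linarith only [hp0])]
      congr 1; ring
    have hDN0 : (D * N) ^ (p - 1) ≠ 0 := by positivity
    rw [mul_assoc T D N, Real.div_rpow (by positivity) (by positivity),
      Real.mul_rpow hlam.le hV.le, Real.mul_rpow hT0.le (by positivity), hV2, hDN]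
    field_simp
  have hVX : V ^ (p - 1) ≤ X := by
    rw [e1] at h
    have h3 : (c * η * (lam ^ p * V ^ (p - 1) * (T ^ p)⁻¹ * ((D * N) ^ (p - 1))⁻¹)) * V ≤
        1 * V := by
      calc _ = c * η * (V * (lam ^ p * V ^ (p - 1) * (T ^ p)⁻¹ * ((D * N) ^ (p - 1))⁻¹)) := by ring
        _ ≤ V := h
        _ = 1 * V := by ring
    have h4 := le_of_mul_le_mul_right h3 hV
    have h5 : V ^ (p - 1) = (c * η * (lam ^ p * V ^ (p - 1) * (T ^ p)⁻¹ *
        ((D * N) ^ (p - 1))⁻¹)) * X := by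
      have hlp : lam ^ p ≠ 0 := by positivity
      have hDN0 : (D * N) ^ (p - 1) ≠ 0 := by positivity
      have hTp : T ^ p ≠ 0 := by positivity
      rw [hX, Real.rpow_neg hlam.le]
      field_simp
    calc V ^ (p - 1) = _ := h5
      _ ≤ 1 * X := by gcongr
      _ = X := one_mul X
  have hV2 : V = (V ^ (p - 1)) ^ (1 / (p - 1)) := by
    rw [← Real.rpow_mul hV.le]
    have : (p - 1) * (1 / (p - 1)) = 1 := by field_simp
    rw [this, Real.rpow_one]
  calc V = (V ^ (p - 1)) ^ (1 / (p - 1)) := hV2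
    _ ≤ X ^ (1 / (p - 1)) := by
        apply Real.rpow_le_rpow (by positivity) hVX (by positivity)
    _ = _ := by
        rw [hX, Real.mul_rpow (by positivity) (by positivity),
          Real.mul_rpow (by positivity) (by positivity),
          Real.mul_rpow (by positivity) (by positivity), ← Real.rpow_mul hlam.le,
          ← Real.rpow_mul (by positivity), Real.inv_rpow hη.le, ← Real.rpow_neg hη.le, h2d]
        have j1 : -p * (1 / (p - 1)) = -(p / (p - 1)) := by ring
        have j2 : (p - 1) * (1 / (p - 1)) = 1 := by field_simp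
        rw [j1, j2, Real.rpow_one]

/-- The weak type bound. -/
lemma weak_of_Rs {p : ℝ} (hd : 1 ≤ d) (hp1 : 1 < p)
    (h : Rs d (1 + (d : ℝ) - p) p) {ε : ℝ} (hε : 1 + (d : ℝ) - p < ε) :
    ∃ A : ℝ, 0 < A ∧ ∀ δ : ℝ, 0 < δ → δ < 1 → ∀ (ι : Type) (S : Finset ι) (c e : ι → E d),
      Fam δ e S → ∀ lam : ℝ, 0 < lam →
      volume {x | lam ≤ mu δ c e S x} ≤ ENNReal.ofReal
        (A * δ ^ (-(ε / (p - 1))) * (lam ^ (-(p / (p - 1))) * (δ ^ d * S.card))) := by
  obtain ⟨c, hc, hr⟩ := lower_of_Rs hd hp1 h hε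
  refine ⟨((2 : ℝ) ^ (d * p) / c) ^ (1 / (p - 1)), by positivity, ?_⟩
  intro δ hδ hδ1 ι S c₀ e hF lam hlam
  rcases eq_or_ne (volume {x | lam ≤ mu δ c₀ e S x}) 0 with h0 | hne
  · rw [h0]; exact bot_le
  have htriv := level_trivial hδ.le c₀ e S hF.unit (measurableSet_level δ c₀ e S lam) hlam
    (fun x hx => hx)
  have hfin : volume {x | lam ≤ mu δ c₀ e S x} ≠ ∞ :=
    ne_top_of_le_ne_top ENNReal.ofReal_ne_top htriv
  obtain ⟨V, hV, hVF⟩ : ∃ V : ℝ, 0 < V ∧ volume {x | lam ≤ mu δ c₀ e S x} = ENNReal.ofReal V :=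
    ⟨(volume {x | lam ≤ mu δ c₀ e S x}).toReal, ENNReal.toReal_pos hne hfin,
      (ENNReal.ofReal_toReal hfin).symm⟩
  have hSpos : 0 < S.card := by
    rcases Nat.eq_zero_or_pos S.card with h0 | hp
    · exfalso
      rw [h0, hVF] at htriv
      simp at htriv
      linarith only [hV, htriv]
    · exact hp
  have hNr : (0 : ℝ) < S.card := by exact_mod_cast hSpos
  rw [hVF]
  apply ENNReal.ofReal_le_ofReal
  have hmass := level_mass δ c₀ e S (measurableSet_level δ c₀ e S lam)
    (fun x (hx : x ∈ {x | lam ≤ mu δ c₀ e S x}) => hx)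
  rw [hVF, ← ENNReal.ofReal_mul hlam.le] at hmass
  have h1 := hr δ hδ hδ1 ι S c₀ e hF hSpos {x | lam ≤ mu δ c₀ e S x}
    (measurableSet_level δ c₀ e S lam) V (lam * V / (2 ^ d * δ ^ d * S.card)) hV hVF
    (by positivity) (by
      rw [div_mul_cancel₀ _ (by positivity)]
      exact hmass)
  have h2 := solve_V' hp1 hV hlam hδ hNr hc (by positivity) h1
  refine h2.trans (le_of_eq ?_)
  have h3 : (δ ^ ε) ^ (-(1 / (p - 1))) = δ ^ (-(ε / (p - 1))) := by
    rw [← Real.rpow_mul hδ.le]; congr 1; ring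
  rw [h3]

/-- **Row LWK.** -/
theorem lwk : LWKStmt := by
  intro d p hd hp1 hpd h q hq ε hε
  have hd0 : (0 : ℝ) < d := by exact_mod_cast hd
  have hs : 0 < p - 1 := by linarith only [hp1]
  have hp' : 1 < p / (p - 1) := by rw [one_lt_div hs]; linarith only [hp1]
  set p' : ℝ := p / (p - 1) with hp'def
  have hq0 : 0 < q := by linarith only [hp', hq]
  have hG := CG_pos d
  have hG1 := one_le_CG d
  -- the losses
  set ε1 : ℝ := ε * q * (p - 1) / 2 with hε1
  have hε10 : 0 < ε1 := by positivity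
  set η : ℝ := min (ε * q / (2 * d)) (1 / 2) with hη
  have hη0 : 0 < η := by rw [hη]; positivity
  have hη1 : η ≤ 1 / 2 := min_le_right _ _
  have hη2 : d * η ≤ ε * q / 2 := by
    calc d * η ≤ d * (ε * q / (2 * d)) := by
          gcongr
          exact min_le_left _ _
      _ = ε * q / 2 := by field_simp
  obtain ⟨A, hA, hw⟩ := weak_of_Rs hd hp1 h (ε := 1 + (d : ℝ) - p + ε1) (by linarith only [hε10])
  set q' : ℝ := p' - η with hq'
  have hq'0 : 0 < q' := by rw [hq']; linarith only [hp', hη1]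
  have hq'q : q' < q := by rw [hq']; linarith only [hq, hη0]
  set G : ℝ := CG d * 3 ^ d with hGdef
  have hG3 : 1 ≤ G := by
    have : (1 : ℝ) ≤ 3 ^ d := one_le_pow₀ (by norm_num)
    rw [hGdef]
    nlinarith only [hG1, hG, this]
  set Kc : ℝ := 2 ^ q' / (1 - (1 / 2) ^ (q - q')) with hKc
  have hKc0 : 0 < Kc := by
    have : ((1 : ℝ) / 2) ^ (q - q') < 1 :=
      Real.rpow_lt_one (by norm_num) (by norm_num) (by linarith only [hq'q])
    rw [hKc]
    apply div_pos (by positivity); linarith only [this]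
  refine ⟨(A * Kc * G ^ (q - p' + η)) ^ (1 / q), ?_⟩
  intro δ hδ hδ1 ι S c e hF
  rcases Nat.eq_zero_or_pos S.card with hS0 | hS
  · have hS1 : S = ∅ := Finset.card_eq_zero.mp hS0
    subst hS1
    have : (fun x => (mu δ c e (∅ : Finset ι) x : ℝ)) = 0 := by
      funext x; simp [mu]
    rw [this, eLpNorm_zero]
    exact bot_le
  have hNr : (0 : ℝ) < S.card := by exact_mod_cast hS
  have hN1 : (1 : ℝ) ≤ S.card := by exact_mod_cast hS
  set N : ℝ := (S.card : ℝ) with hN
  set B : ℝ := A * δ ^ (-((1 + (d : ℝ) - p + ε1) / (p - 1))) with hB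
  have hB0 : 0 < B := by positivity
  have hsw := strong_of_weak (q' := q') (q1 := q) (W := B * (N ^ (η + 1 - p' + 1 / (d : ℝ))))
    hq'0 hq'q (by positivity) hδ hd S c e hS (by
      intro κ hκ hκ1
      -- reduction to `κ ≥ 1 / N`
      have key : ∀ κ' : ℝ, 1 / N ≤ κ' → κ' ≤ 1 → κ ≤ κ' →
          {x | κ * S.card ≤ mu δ c e S x} ⊆ {x | κ' * N ≤ mu δ c e S x} →
          volume {x | κ * S.card ≤ mu δ c e S x} ≤ ENNReal.ofReal
            (B * (N ^ (η + 1 - p' + 1 / (d : ℝ))) * κ ^ (-q') *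
              (δ ^ d * (S.card : ℝ) ^ (-(1 / (d : ℝ))))) := by
        intro κ' h1 h2 h3 hsub
        have hκ'0 : 0 < κ' := lt_of_lt_of_le (by positivity) h1
        refine (measure_mono hsub).trans ((hw δ hδ hδ1 ι S c e hF (κ' * N) (by positivity)).trans
          (ENNReal.ofReal_le_ofReal ?_))
        have g1 : κ' ^ (-p') ≤ κ ^ (-q') * N ^ η := by
          have g2 : κ' ^ (-p') = κ' ^ (-q') * κ' ^ (-η) := by
            rw [← Real.rpow_add hκ'0]; congr 1; rw [hq']; ring
          rw [g2]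
          have g3 : κ' ^ (-q') ≤ κ ^ (-q') :=
            Real.rpow_le_rpow_of_nonpos hκ h3 (by linarith only [hq'0])
          have g4 : κ' ^ (-η) ≤ N ^ η := by
            calc κ' ^ (-η) ≤ (1 / N) ^ (-η) :=
                  Real.rpow_le_rpow_of_nonpos (by positivity) h1 (by linarith only [hη0])
              _ = N ^ η := by
                  rw [one_div, Real.inv_rpow hNr.le, Real.rpow_neg hNr.le, inv_inv]
          exact mul_le_mul g3 g4 (by positivity) (by positivity)
        have g5 : N ^ η * N ^ (-p') * N = N ^ (η + 1 - p' + 1 / (d : ℝ)) * N ^ (-(1 / (d : ℝ))) := by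
          rw [← Real.rpow_add hNr, ← Real.rpow_add hNr]
          nth_rewrite 2 [← Real.rpow_one N]
          rw [← Real.rpow_add hNr]
          congr 1; ring
        calc B * ((κ' * N) ^ (-p') * (δ ^ d * N))
            = B * (κ' ^ (-p') * (N ^ (-p') * N * δ ^ d)) := by
              rw [Real.mul_rpow hκ'0.le hNr.le]; ring
          _ ≤ B * ((κ ^ (-q') * N ^ η) * (N ^ (-p') * N * δ ^ d)) := by gcongr
          _ = B * κ ^ (-q') * δ ^ d * (N ^ η * N ^ (-p') * N) := by ring
          _ = _ := by rw [g5]; ring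
      rcases le_or_gt (1 / N) κ with h1 | h1
      · exact key κ h1 hκ1 le_rfl (fun x hx => hx)
      · refine key (1 / N) le_rfl (by rw [div_le_one hNr]; exact hN1) h1.le ?_
        intro x hx
        have hx' : κ * N ≤ mu δ c e S x := hx
        have h2 : (0 : ℝ) < mu δ c e S x := lt_of_lt_of_le (by positivity) hx'
        have h3 : 1 ≤ mu δ c e S x := by
          have : 0 < mu δ c e S x := by exact_mod_cast h2
          omega
        have h4 : (1 : ℝ) ≤ mu δ c e S x := by exact_mod_cast h3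
        change 1 / N * N ≤ (mu δ c e S x : ℝ)
        rw [one_div, inv_mul_cancel₀ hNr.ne']
        exact h4)
  refine hsw.trans (ENNReal.ofReal_le_ofReal ?_)
  have hcard := card_le_all hδ hδ1 hF
  -- the `q`-th power
  have e1 : (B * N ^ (η + 1 - p' + 1 / (d : ℝ)) * 2 ^ q' / (1 - (1 / 2) ^ (q - q'))) ^ (1 / q) *
      (δ ^ ((d : ℝ) / q) * N ^ (1 - 1 / (q * d))) =
      (B * Kc * N ^ (q - p' + η) * (δ ^ d * N)) ^ (1 / q) := by
    have f1 : δ ^ ((d : ℝ) / q) = (δ ^ d) ^ (1 / q) := by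
      rw [← Real.rpow_natCast δ d, ← Real.rpow_mul hδ.le]; congr 1; ring
    have f2 : N ^ (1 - 1 / (q * d)) = (N ^ (q - 1 / (d : ℝ))) ^ (1 / q) := by
      rw [← Real.rpow_mul hNr.le]; congr 1; field_simp
    have f3 : B * N ^ (η + 1 - p' + 1 / (d : ℝ)) * 2 ^ q' / (1 - (1 / 2) ^ (q - q')) =
        B * Kc * N ^ (η + 1 - p' + 1 / (d : ℝ)) := by rw [hKc]; ring
    rw [f1, f2, f3, ← Real.mul_rpow (by positivity) (by positivity),
      ← Real.mul_rpow (by positivity) (by positivity)]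
    congr 1
    have f4 : N ^ (η + 1 - p' + 1 / (d : ℝ)) * N ^ (q - 1 / (d : ℝ)) = N ^ (q - p' + η) * N := by
      nth_rewrite 4 [← Real.rpow_one N]
      rw [← Real.rpow_add hNr, ← Real.rpow_add hNr]
      congr 1; ring
    calc B * Kc * N ^ (η + 1 - p' + 1 / (d : ℝ)) * (δ ^ d * N ^ (q - 1 / (d : ℝ))) =
        B * Kc * δ ^ d * (N ^ (η + 1 - p' + 1 / (d : ℝ)) * N ^ (q - 1 / (d : ℝ))) := by ring
      _ = _ := by rw [f4]; ring
  rw [e1]
  have e2 : (A * Kc * G ^ (q - p' + η)) ^ (1 / q) * δ ^ (((d : ℝ) + 1) / q - d - ε) *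
      (δ ^ d * N) ^ (1 / q) =
      (A * Kc * G ^ (q - p' + η) * δ ^ ((d : ℝ) + 1 - d * q - ε * q) * (δ ^ d * N)) ^ (1 / q) := by
    have f1 : δ ^ (((d : ℝ) + 1) / q - d - ε) = (δ ^ ((d : ℝ) + 1 - d * q - ε * q)) ^ (1 / q) := by
      rw [← Real.rpow_mul hδ.le]; congr 1; field_simp
    rw [f1, ← Real.mul_rpow (by positivity) (by positivity),
      ← Real.mul_rpow (by positivity) (by positivity)]
  rw [e2]
  apply Real.rpow_le_rpow (by positivity) _ (by positivity)
  have e3 : N ^ (q - p' + η) ≤ G ^ (q - p' + η) * δ ^ (-(d * (q - p' + η))) := by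
    have hexp : 0 ≤ q - p' + η := by linarith only [hq, hη0]
    calc N ^ (q - p' + η) ≤ (G * (δ ^ d)⁻¹) ^ (q - p' + η) :=
          Real.rpow_le_rpow hNr.le hcard hexp
      _ = _ := by
          rw [Real.mul_rpow (by positivity) (by positivity), ← Real.rpow_natCast δ d,
            ← Real.rpow_neg hδ.le, ← Real.rpow_mul hδ.le]
          congr 2; ring
  have e4 : δ ^ (-((1 + (d : ℝ) - p + ε1) / (p - 1))) * δ ^ (-(d * (q - p' + η))) ≤
      δ ^ ((d : ℝ) + 1 - d * q - ε * q) := by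
    rw [← Real.rpow_add hδ]
    apply Real.rpow_le_rpow_of_exponent_ge hδ hδ1.le
    have f1 : (1 + (d : ℝ) - p + ε1) / (p - 1) = (1 + (d : ℝ) - p) / (p - 1) + ε * q / 2 := by
      rw [hε1]; field_simp
    have f2 : (1 + (d : ℝ) - p) / (p - 1) = d * p' - (d + 1) := by
      rw [hp'def]; field_simp; ring
    rw [f1, f2]
    nlinarith only [hη2]
  calc B * Kc * N ^ (q - p' + η) * (δ ^ d * N)
      ≤ B * Kc * (G ^ (q - p' + η) * δ ^ (-(d * (q - p' + η)))) * (δ ^ d * N) := by gcongr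
    _ = A * Kc * G ^ (q - p' + η) * (δ ^ (-((1 + (d : ℝ) - p + ε1) / (p - 1))) *
          δ ^ (-(d * (q - p' + η)))) * (δ ^ d * N) := by rw [hB]; ring
    _ ≤ _ := by gcongr

end Pool.L5
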